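import Pool.Agent.Helper57.IA.St

/-!
Project IA, part P, module IM
-/

set_option autoImplicit false

namespace Pool.Agent.Helper19.IA57

open Finset Pool.Agent.Helper93.IA Pool.Agent.Helper57.IA

private lemma d1_sdiff {X Y : Type} [DecidableEq X] [DecidableEq Y] (A Q : Finset (X × Y)) (h : Q ⊆ A)
    (a : X) : (d1 (A \ Q) a : ℝ) = d1 A a - d1 Q a := by
  have h1 : d1 (A \ Q) a + d1 Q a = d1 A a := by
    unfold d1
    rw [← Finset.card_union_of_disjoint]
    · congr 1
      ext e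
      simp only [mem_union, mem_filter, mem_sdiff]
      constructor
      · rintro (⟨⟨h1, -⟩, h2⟩ | ⟨h1, h2⟩)
        · exact ⟨h1, h2⟩
        · exact ⟨h h1, h2⟩
      · rintro ⟨h1, h2⟩
        by_cases h3 : e ∈ Q
        · exact Or.inr ⟨h3, h2⟩
        · exact Or.inl ⟨⟨h1, h3⟩, h2⟩
    · rw [Finset.disjoint_left]
      intro e he he'
      simp only [mem_filter, mem_sdiff] at he he'
      exact he.1.2 he'.1
  rw [← h1]
  push_cast
  ring

private lemma d2_sdiff {X Y : Type} [DecidableEq X] [DecidableEq Y] (A Q : Finset (X × Y)) (h : Q ⊆ A)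
    (b : Y) : (d2 (A \ Q) b : ℝ) = d2 A b - d2 Q b := by
  have h1 : d2 (A \ Q) b + d2 Q b = d2 A b := by
    unfold d2
    rw [← Finset.card_union_of_disjoint]
    · congr 1
      ext e
      simp only [mem_union, mem_filter, mem_sdiff]
      constructor
      · rintro (⟨⟨h1, -⟩, h2⟩ | ⟨h1, h2⟩)
        · exact ⟨h1, h2⟩
        · exact ⟨h h1, h2⟩
      · rintro ⟨h1, h2⟩
        by_cases h3 : e ∈ Q
        · exact Or.inr ⟨h3, h2⟩
        · exact Or.inl ⟨⟨h1, h3⟩, h2⟩
    · rw [Finset.disjoint_left]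
      intro e he he'
      simp only [mem_filter, mem_sdiff] at he he'
      exact he.1.2 he'.1
  rw [← h1]
  push_cast
  ring

private lemma sub_sdiff {X Y : Type} [DecidableEq X] [DecidableEq Y] (A Q : Finset (X × Y)) (U : Finset X)
    (V : Finset Y) (h : Q ⊆ crs A U V) : Q ⊆ A \ ins A U V := by
  intro e he
  have h1 := h he
  unfold crs at h1
  unfold ins
  simp only [mem_filter, mem_sdiff] at h1 ⊢
  refine ⟨h1.1, ?_⟩
  rintro ⟨-, h2, h3⟩
  exact h1.2 ⟨fun _ => h3, fun _ => h2⟩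

private lemma ins_sub {X Y : Type} [DecidableEq X] [DecidableEq Y] (A : Finset (X × Y)) (U : Finset X)
    (V : Finset Y) : ins A U V ⊆ A := by
  unfold ins
  exact Finset.filter_subset _ _

private lemma sum_pc {X Y : Type} [DecidableEq X] [DecidableEq Y] [Fintype Y] (ρ : ℝ)
    (E : Finset (X × Y)) (r : X → Y → ℝ) (x : X) :
    ∑ y, pc ρ E r x y = ρ * ∑ y, (if (x, y) ∈ E then r x y else 0) := by
  unfold pc
  rw [Finset.mul_sum]
  refine Finset.sum_congr rfl fun y _ => ?_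
  split_ifs <;> ring

private lemma sum_pc' {X Y : Type} [DecidableEq X] [DecidableEq Y] [Fintype X] (ρ : ℝ)
    (E : Finset (X × Y)) (r : X → Y → ℝ) (y : Y) :
    ∑ x, pc ρ E r x y = ρ * ∑ x, (if (x, y) ∈ E then r x y else 0) := by
  unfold pc
  rw [Finset.mul_sum]
  refine Finset.sum_congr rfl fun x _ => ?_
  split_ifs <;> ring

theorem hIM : StIM := by
  intro α β γ _ _ _ _ _ _ κ ε g ξ ρ η n m A0 A B0 B C0 C U1 W1 U2 W2 U3 W3 rA rB rC QA QB QC h a
  have e1 := d1_sdiff (A \ ins A U1 U2) QA (sub_sdiff A QA U1 U2 h.qA) a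
  have e2 := d2_sdiff (C \ ins C U3 U1) QC (sub_sdiff C QC U3 U1 h.qC) a
  have e3 := d1_sdiff A (ins A U1 U2) (ins_sub A U1 U2) a
  have e4 := d2_sdiff C (ins C U3 U1) (ins_sub C U3 U1) a
  have e5 : (d1 A a : ℝ) = d2 C a := by
    have := h.lv.bal.1 a
    exact_mod_cast this
  have e6 := h.bal a
  have e7 := h.dev.dA a
  have e8 := h.dev.dC a
  rw [sum_pc] at e7
  rw [sum_pc'] at e8
  rw [e1, e2, e3, e4]
  rw [abs_le] at e7 e8 ⊢
  constructor <;> linarith [e7.1, e7.2, e8.1, e8.2]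

end Pool.Agent.Helper19.IA57
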